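import Pool.Agent.Helper27.BoomB

/-!
# Boomerang-simple countable groups

For every odd `n ≥ 5` the infinite countable group `SL_n(ℚ)` is boomerang simple: its only boomerang
subgroups are the trivial subgroup and the whole group. In particular `MP_80afb3_al` Q1 has a
positive answer.

Idea: a boomerang subgroup `Δ` has the property that for `δ ∈ Δ` and every `g` some `k ≥ 1` has
`g^{-k} δ g^k ∈ Δ`. Taking suitable transvections `g` one produces first an element `1 + N` of `Δ`
with `N² = 0` of rank at most two, then a transvection. Conjugating by elements that scale the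
transvection by a rational number shows that the whole root subgroup lies in `Δ`; conjugating by
transvections then gives all transvections, which generate `SL_n(ℚ)`.
-/

open Matrix Topology

namespace Pool.Agent.Results.MP_80afb3_al.SpecialLinearBoomerangSimple

open Classical in
/-- The Chabauty topology on the set of subgroups of a discrete group `G`: the topology induced from
the product topology on `{0,1}^G` by the map sending a subgroup to its indicator function. -/
@[reducible] noncomputable def chabauty (G : Type*) [Group G] : TopologicalSpace (Subgroup G) :=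
  TopologicalSpace.induced (fun (H : Subgroup G) (g : G) => (decide (g ∈ H) : Bool)) inferInstance

/-- The conjugate `γ Δ γ⁻¹` of a subgroup. -/
def conjSubgroup {G : Type*} [Group G] (γ : G) (Δ : Subgroup G) : Subgroup G :=
  Δ.map (MulAut.conj γ).toMonoidHom

/-- `Δ` is recurrent for `γ`: for every neighbourhood `O` of `Δ` in the space of subgroups there is
`n ≥ 1` with `γ^n Δ γ^{-n} ∈ O`. -/
def IsRecurrentFor {G : Type*} [Group G] (γ : G) (Δ : Subgroup G) : Prop :=
  ∀ O ∈ @nhds (Subgroup G) (chabauty G) Δ, ∃ n : ℕ, 1 ≤ n ∧ conjSubgroup (γ ^ n) Δ ∈ O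

/-- `Δ` is a boomerang subgroup: it is recurrent for every `γ`. -/
def IsBoomerang {G : Type*} [Group G] (Δ : Subgroup G) : Prop :=
  ∀ γ : G, IsRecurrentFor γ Δ

/-- `G` is boomerang simple: its only boomerang subgroups are the trivial subgroup and `G`. -/
def BoomerangSimple (G : Type*) [Group G] : Prop :=
  ∀ Δ : Subgroup G, IsBoomerang Δ ↔ (Δ = ⊥ ∨ Δ = ⊤)

open Classical in
lemma mem_nhds_of_mem {G : Type*} [Group G] (Δ : Subgroup G) (δ : G) (hδ : δ ∈ Δ) :
    {L : Subgroup G | δ ∈ L} ∈ @nhds (Subgroup G) (chabauty G) Δ := by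
  let := chabauty G
  have hcont : Continuous (fun (H : Subgroup G) (g : G) => (decide (g ∈ H) : Bool)) :=
    continuous_induced_dom
  have hcont' : Continuous (fun (H : Subgroup G) => (decide (δ ∈ H) : Bool)) :=
    (continuous_apply δ).comp hcont
  have hopen : IsOpen ((fun (H : Subgroup G) => (decide (δ ∈ H) : Bool)) ⁻¹' {true}) :=
    (isOpen_discrete _).preimage hcont'
  have : {L : Subgroup G | δ ∈ L} = (fun (H : Subgroup G) => (decide (δ ∈ H) : Bool)) ⁻¹' {true} := by
    ext L; simp
  rw [this]
  exact hopen.mem_nhds (by simpa using hδ)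

lemma wr_of_isBoomerang {G : Type*} [Group G] {Δ : Subgroup G} (h : IsBoomerang Δ) :
    Pool.Agent.Helper27.Boomerang.WR Δ := by
  intro δ hδ g
  obtain ⟨k, hk, hk'⟩ := h g _ (mem_nhds_of_mem Δ δ hδ)
  refine ⟨k, hk, ?_⟩
  obtain ⟨y, hy, hy'⟩ := Subgroup.mem_map.1 hk'
  have hy2 : g ^ k * y * (g ^ k)⁻¹ = δ := hy'
  have : (g ^ k)⁻¹ * δ * g ^ k = y := by
    rw [← hy2]; group
  rw [this]; exact hy

lemma isBoomerang_of_normal {G : Type*} [Group G] (Δ : Subgroup G)
    (h : ∀ γ : G, conjSubgroup γ Δ = Δ) : IsBoomerang Δ := by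
  intro γ O hO
  exact ⟨1, le_rfl, by rw [h]; exact @mem_of_mem_nhds _ (chabauty G) _ _ hO⟩

lemma conj_bot {G : Type*} [Group G] (γ : G) : conjSubgroup γ (⊥ : Subgroup G) = ⊥ := by
  simp [conjSubgroup]

lemma conj_top {G : Type*} [Group G] (γ : G) : conjSubgroup γ (⊤ : Subgroup G) = ⊤ := by
  unfold conjSubgroup
  rw [Subgroup.map_top_of_surjective]
  exact (MulAut.conj γ).surjective

theorem sl_boomerangSimple {n : ℕ} (hn4 : 4 ≤ n) (hn : Odd n) :
    BoomerangSimple (SpecialLinearGroup (Fin n) ℚ) := by
  intro Δ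
  constructor
  · intro h
    exact Pool.Agent.Helper27.Boomerang.eq_bot_or_top hn4 hn (wr_of_isBoomerang h)
  · rintro (rfl | rfl)
    · exact isBoomerang_of_normal _ conj_bot
    · exact isBoomerang_of_normal _ conj_top

lemma sl_infinite {n : ℕ} (hn4 : 4 ≤ n) : Infinite (SpecialLinearGroup (Fin n) ℚ) := by
  have hij : (⟨0, by omega⟩ : Fin n) ≠ ⟨1, by omega⟩ := by simp
  refine Infinite.of_injective (fun c : ℚ => SpecialLinearGroup.transvection hij c) ?_
  intro c d h
  have h2 := congrArg (fun M : SpecialLinearGroup (Fin n) ℚ =>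
    (M : Matrix (Fin n) (Fin n) ℚ) ⟨0, by omega⟩ ⟨1, by omega⟩) h
  simpa [SpecialLinearGroup.transvection_coe] using h2

lemma sl_countable (n : ℕ) : Countable (SpecialLinearGroup (Fin n) ℚ) := by
  unfold Matrix.SpecialLinearGroup
  have : Countable (Matrix (Fin n) (Fin n) ℚ) := by
    unfold Matrix; infer_instance
  infer_instance

/-- For every odd `n ≥ 5`, `SL_n(ℚ)` is an infinite countable boomerang-simple group; in particular
an infinite countable boomerang-simple group exists. -/
theorem result :
    (∀ n : ℕ, 5 ≤ n → Odd n →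
      Infinite (SpecialLinearGroup (Fin n) ℚ) ∧ Countable (SpecialLinearGroup (Fin n) ℚ) ∧
        BoomerangSimple (SpecialLinearGroup (Fin n) ℚ)) ∧
    ∃ (Γ : Type) (_ : Group Γ), Infinite Γ ∧ Countable Γ ∧ BoomerangSimple Γ := by
  have h : ∀ n : ℕ, 5 ≤ n → Odd n →
      Infinite (SpecialLinearGroup (Fin n) ℚ) ∧ Countable (SpecialLinearGroup (Fin n) ℚ) ∧
        BoomerangSimple (SpecialLinearGroup (Fin n) ℚ) := fun n hn ho =>
    ⟨sl_infinite (by omega), sl_countable n, sl_boomerangSimple (by omega) ho⟩
  exact ⟨h, SpecialLinearGroup (Fin 5) ℚ, inferInstance, h 5 le_rfl (by decide)⟩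

end Pool.Agent.Results.MP_80afb3_al.SpecialLinearBoomerangSimple
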